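import Pool.Agent.PFE.StmtsE2

/-!
# Squad PFE, row LFY (helper7)
-/

noncomputable section

namespace Pool.Agent.PFE.H7

open MulOpposite
open Pool.Agent.PFC.B1 (FS Split BiM Sep)
open Pool.Agent.PFD.D2

/-- LFY: a framed bimodule is liftable. -/
theorem lfy (hGFR : GfrStmt) (hLHY : LhyStmt) (hLBY : LbyStmt) : LfyStmt := by
  intro R Γ W M X Ω Ω' _ _ _ _ _ _ _ _ _ _ _ _ l G χ BX F p hl h1 h2
  obtain ⟨Ω1, Ω1', i1, i2, i3, i4, ⟨F1⟩⟩ := hGFR R Γ W X l G χ (by omega)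
  exact ⟨hLHY R Γ W M M X Ω Ω' Ω Ω' l G χ BX BX F F p hl h1 h2,
    hLBY R Γ W M M X Ω Ω' Ω Ω' l G χ BX BX F F p hl h1 h2,
    hLBY R Γ W M Γ X Ω Ω' Ω1 Ω1' l G χ BX (regB R Γ) F F1 p hl h1 h2⟩

end Pool.Agent.PFE.H7
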