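import Pool.Agent.PFE.StmtsE1
import Pool.Agent.PFD.StmtsD4

/-!
# Squad PFE, row KZT: the divergence (helper7; after `Helper3_PFD/ZET.lean`)
-/

open scoped BigOperators

noncomputable section

namespace Pool.Agent.PFE.H7

open Pool.Agent.PFC.B1 (FS Split)
open Pool.Agent.PFD (RF)

theorem kzt (hKCR : KcrStmt) (hKTT : KttStmt) (hRTC : Pool.Agent.PFD.D4.RtcStmt) : KztStmt := by
  intro K B A I J N _ _ _ _ _ _ _ _ D
  have huu : D.u' * D.u = 1 := by rw [← D.uc]; exact D.uu
  have hu' : ∀ b, D.u' * b = b * D.u' := by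
    intro b
    calc D.u' * b = D.u' * b * (D.u * D.u') := by rw [D.uu, mul_one]
      _ = D.u' * (b * D.u) * D.u' := by noncomm_ring
      _ = D.u' * (D.u * b) * D.u' := by rw [D.uc]
      _ = (D.u' * D.u) * b * D.u' := by noncomm_ring
      _ = b * D.u' := by rw [huu, one_mul]
  have hvu : ∀ b, D.v D.u * b = b * D.v D.u := by
    intro b
    have h1 := congrArg D.v (D.uc b)
    rw [D.vm, D.vm, D.uc (D.v b), add_comm (D.v b * D.u)] at h1
    exact add_right_cancel h1
  set ν : B := D.u' * D.v D.u with hν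
  have hνc : ∀ b, ν * b = b * ν := by
    intro b
    rw [hν, mul_assoc, hvu, ← mul_assoc, hu', mul_assoc]
  have hνn : IsNilpotent ν := by
    obtain ⟨m, hm⟩ := D.nil D.u
    refine ⟨m, ?_⟩
    have hc : Commute D.u' (D.v D.u) := hu' _
    rw [hν, hc.mul_pow, hm, mul_zero]
  set De : B := ν - algebraMap K B (D.wt : K) with hDe
  have hDec : ∀ b, De * b = b * De := by
    intro b
    rw [hDe, sub_mul, mul_sub, hνc, Algebra.commutes]
  obtain ⟨t0, ht0⟩ := hKCR K B A I J N D (D.sp.j De) (fun b => by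
    rw [← map_mul, ← map_mul, hDec])
  obtain ⟨r1, r2, r3, -, -⟩ := hKTT K B A I J N D
  obtain ⟨s1, s2, -⟩ := hRTC K B A N D.sp.j D.sp.pr D.s
  have hrc : ∀ a, a * D.s.rt (D.sp.j De) = D.s.rt (D.sp.j De) * a := s1 (D.sp.j De) (fun γ => by
    rw [← map_mul, ← map_mul, hDec])
  refine ⟨De, ν, rfl, hνn, hνc, ?_, hrc, ?_⟩
  · intro a
    have h1 := D.tv (D.u * a)
    rw [D.vm, mul_add, ← mul_assoc, ← mul_assoc, ← mul_assoc, huu, one_mul, one_mul, map_add] at h1
    rw [hDe, mul_sub, map_sub, ← hνc a, ← Algebra.commutes, ← Algebra.smul_def, map_smul,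
      smul_eq_mul, ← h1, hν]
    ring
  · set ζ : A := D.s.rt (D.sp.j De) + algebraMap K A (D.wt : K) with hζ
    have hζ1 : ζ = D.sp.j ν + D.TB t0 := by
      rw [hζ, ht0, hDe, map_sub, AlgHom.commutes]
      abel
    have hζc : ∀ a, a * ζ = ζ * a := by
      intro a
      rw [hζ, mul_add, add_mul, hrc, Algebra.commutes]
    have hTBadd : ∀ a b, D.TB (a + b) = D.TB a + D.TB b := by
      intro a b
      unfold KM.TB
      rw [← Finset.sum_add_distrib]
      refine Finset.sum_congr rfl fun i _ => ?_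
      rw [mul_add, add_mul]
    have hjν : ∀ b, D.sp.j b * D.sp.j ν = D.sp.j ν * D.sp.j b := fun b => by
      rw [← map_mul, ← map_mul, hνc]
    have hpow : ∀ m : ℕ, ∃ t, ζ ^ m = D.sp.j ν ^ m + D.TB t := by
      intro m
      induction m with
      | zero =>
        refine ⟨0, ?_⟩
        have h0 : D.TB 0 = 0 := by
          unfold KM.TB
          simp
        rw [pow_zero, pow_zero, h0, add_zero]
      | succ m ih =>
        obtain ⟨t, ht⟩ := ih
        have hm : ∀ b, D.sp.j b * D.sp.j ν ^ m = D.sp.j ν ^ m * D.sp.j b := fun b => by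
          have h2 : Commute (D.sp.j b) (D.sp.j ν) := hjν b
          exact h2.pow_right m
        refine ⟨D.sp.j ν ^ m * t0 + (t * D.sp.j ν + t * D.TB t0), ?_⟩
        rw [hTBadd, hTBadd, ← (r3 t0 _ hm).1, ← (r3 t _ hjν).2, ← (r3 t _ (r2 t0)).2, pow_succ,
          ht, hζ1, pow_succ]
        noncomm_ring
    obtain ⟨M, hM⟩ := hνn
    obtain ⟨t, ht⟩ := hpow M
    have ht' : ζ ^ M = D.TB t := by
      rw [ht, ← map_pow, hM, map_zero, zero_add]
    have hζMc : ∀ a, ζ ^ M * a = a * ζ ^ M := by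
      intro a
      have h2 : Commute a ζ := hζc a
      exact (h2.pow_right M).symm
    have h4 : ζ ^ M = D.TA (t * D.w) := by
      calc ζ ^ M = ζ ^ M * D.s.rt D.w := by rw [D.rw, mul_one]
        _ = D.s.rt (ζ ^ M * D.w) := (s2 (ζ ^ M) D.w hζMc).symm
        _ = D.s.rt (D.TB (t * D.w)) := by rw [ht', (r3 t D.w D.wc).2]
        _ = D.TA (t * D.w) := r1 _
    obtain ⟨k, hk⟩ := D.np (t * D.w)
    refine ⟨M * k, ?_⟩
    rw [pow_mul, h4]
    exact hk

end Pool.Agent.PFE.H7
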